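import Pool.Agent.H21.BS.TB

/-!
Row M4 of the board `bes_modules`: the fourth moment of the dual function.
-/

set_option autoImplicit false

open Finset Pool.Agent.H6.N4D

namespace Pool.Agent.H11.BS

open Pool.Agent.H21.BS

theorem pf_M4 (hOMB : T_OMB) (hMOM : T_MOM) : T_M4 := by
  intro W P κ V hV
  have hW : 0 ≤ W := by
    refine le_trans (Finset.sum_nonneg fun q _ => ?_) hV.wt
    positivity
  have hN : 1 ≤ V.N := by
    rcases Nat.eq_zero_or_pos V.N with h | h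
    · have := hV.k2
      rw [h] at this
      norm_num at this
    · exact h
  have hM := hMOM V.Q W V.a V.N hV.pr hV.up hN hV.wt
  have hpt : ∀ x ∈ range V.N, ‖V.om (V.a + x)‖ ^ 4 ≤
      648 * ((((V.Q.filter fun q => q ∣ V.a + x).card : ℝ)) ^ 4 + W ^ 4) := by
    intro x _
    have h1 := hOMB W P κ V hV (V.a + x)
    set ν : ℝ := ((V.Q.filter fun q => q ∣ V.a + x).card : ℝ) with hν
    have hν0 : 0 ≤ ν := Nat.cast_nonneg _
    have h2 : ‖V.om (V.a + x)‖ ^ 4 ≤ (3 * (ν + W)) ^ 4 :=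
      pow_le_pow_left₀ (norm_nonneg _) h1 4
    have h3 : (ν + W) ^ 2 ≤ 2 * (ν ^ 2 + W ^ 2) := by nlinarith [sq_nonneg (ν - W)]
    have h4 : (ν + W) ^ 4 ≤ 8 * (ν ^ 4 + W ^ 4) := by
      have e : (ν + W) ^ 4 = ((ν + W) ^ 2) ^ 2 := by ring
      have h5 : ((ν + W) ^ 2) ^ 2 ≤ (2 * (ν ^ 2 + W ^ 2)) ^ 2 :=
        pow_le_pow_left₀ (sq_nonneg _) h3 2
      rw [e]
      nlinarith [sq_nonneg (ν ^ 2 - W ^ 2)]
    calc ‖V.om (V.a + x)‖ ^ 4 ≤ (3 * (ν + W)) ^ 4 := h2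
      _ = 81 * (ν + W) ^ 4 := by ring
      _ ≤ 81 * (8 * (ν ^ 4 + W ^ 4)) := by linarith
      _ = _ := by ring
  have h1 := Finset.sum_le_sum hpt
  rw [← Finset.mul_sum, Finset.sum_add_distrib, Finset.sum_const, card_range, nsmul_eq_mul] at h1
  have hNr : (0 : ℝ) ≤ V.N := Nat.cast_nonneg _
  have hW4 : W ^ 4 ≤ (4 + W) ^ 4 := pow_le_pow_left₀ hW (by linarith) 4
  have h2 : (V.N : ℝ) * W ^ 4 ≤ V.N * (4 + W) ^ 4 := mul_le_mul_of_nonneg_left hW4 hNr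
  have h3 : (0 : ℝ) ≤ V.N * (4 + W) ^ 4 := by positivity
  nlinarith

end Pool.Agent.H11.BS
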